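import Pool.Agent.H73.GWT.Stmts

/-! Row PAS of project GWT (MP_213ba5_lc). -/

set_option autoImplicit false

open Classical

namespace GWT

variable {ι G V : Type*} [Fintype ι] [Group G] [MulAction G V] (C : Code ι G V)

theorem PAS (S : Type*) : PASStmt C S := by
  intro e D hD b g Q P hQP hseg
  have hT := C.tree
  obtain ⟨y, hy⟩ : ∃ y : ℕ → V, ∀ j, y j = g • GWP.ev e (b.take j) • C.o :=
    ⟨fun j => g • GWP.ev e (b.take j) • C.o, fun j => rfl⟩
  have hstep : ∀ j, C.T.dist (y j) (y (j + 1)) ≤ D := by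
    intro j
    rcases Nat.lt_or_ge j b.length with hj | hj
    · have h1 : b.take (j + 1) = b.take j ++ [b[j]] := by
        rw [List.take_succ_eq_append_getElem hj]
      rw [hy, hy, h1, GWP.ev_append, GWP.ev_cons, GWP.ev_nil, mul_one, mul_smul, C.ds, C.ds]
      exact hD _
    · have h1 : y (j + 1) = y j := by
        rw [hy, hy, List.take_of_length_le hj, List.take_of_length_le (by omega)]
      rw [h1, SimpleGraph.dist_self]
      exact Nat.zero_le _
  have hlen : ∀ i k, C.T.dist (y i) (y (i + k)) ≤ D * k := by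
    intro i k
    induction k with
    | zero => simp
    | succ k ih =>
      have t := dtri hT (y i) (y (i + k)) (y (i + k + 1))
      have s := hstep (i + k)
      rw [Nat.mul_succ, ← Nat.add_assoc]
      omega
  have hy0 : y 0 = g • C.o := by
    rw [hy]
    simp [GWP.ev_nil]
  have hyn : y b.length = g • GWP.ev e b • C.o := by
    rw [hy, List.take_length]
  have hdn : C.T.dist (y 0) (y b.length) = C.T.dist C.o (GWP.ev e b • C.o) := by
    rw [hy0, hyn, C.ds]
  rw [← hy0, ← hyn] at hseg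
  have hseg' : C.T.dist (y 0) Q + C.T.dist Q P + C.T.dist P (y b.length) =
      C.T.dist (y 0) (y b.length) := by
    rw [hdn]
    exact hseg
  have hQ0 : Bt C.T (y 0) Q P := by
    unfold Bt
    have t1 := dtri hT (y 0) Q P
    have t2 := dtri hT (y 0) P (y b.length)
    omega
  have hPn : Bt C.T Q P (y b.length) := by
    unfold Bt
    have t1 := dtri hT Q P (y b.length)
    have t2 := dtri hT (y 0) Q (y b.length)
    omega
  have hpos : 0 < C.T.dist Q P := by
    rcases Nat.eq_zero_or_pos (C.T.dist Q P) with h | h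
    · exact absurd (dzero hT h) hQP
    · exact h
  have hboth : ∀ j, Bt C.T (y j) Q P → Bt C.T Q P (y j) → False := by
    intro j h1 h2
    unfold Bt at h1 h2
    have c1 := dcomm (T := C.T) (y j) Q
    have c2 := dcomm (T := C.T) (y j) P
    omega
  -- first index on the P-side
  have hex : ∃ j, Bt C.T Q P (y j) := ⟨b.length, hPn⟩
  obtain ⟨j2, hj2P, hj2min, hj2len⟩ : ∃ j2, Bt C.T Q P (y j2) ∧
      (∀ j, j < j2 → ¬ Bt C.T Q P (y j)) ∧ j2 ≤ b.length :=
    ⟨Nat.find hex, Nat.find_spec hex, fun j hj => Nat.find_min hex hj, Nat.find_min' hex hPn⟩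
  have hj2pos : 0 < j2 := by
    rcases Nat.eq_zero_or_pos j2 with h | h
    · subst h
      exact (hboth 0 hQ0 hj2P).elim
    · exact h
  -- last index before j2 on the Q-side
  obtain ⟨j1, hj1lt, hj1Q, hj1max⟩ : ∃ j1, j1 < j2 ∧ Bt C.T (y j1) Q P ∧
      ∀ j, j1 < j → j < j2 → ¬ Bt C.T (y j) Q P := by
    refine ⟨Nat.findGreatest (fun j => Bt C.T (y j) Q P) (j2 - 1), ?_, ?_, ?_⟩
    · have := Nat.findGreatest_le (P := fun j => Bt C.T (y j) Q P) (j2 - 1)
      omega
    · exact Nat.findGreatest_spec (P := fun j => Bt C.T (y j) Q P) (Nat.zero_le (j2 - 1)) hQ0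
    · intro j h1 h2
      exact Nat.findGreatest_is_greatest (P := fun j => Bt C.T (y j) Q P) h1 (by omega)
  have hnext : ¬ Bt C.T (y (j1 + 1)) Q P := by
    rcases Nat.lt_or_ge (j1 + 1) j2 with h | h
    · exact hj1max _ (by omega) h
    · have he : j1 + 1 = j2 := by omega
      rw [he]
      exact fun h' => hboth j2 h' hj2P
  have hA : Bt C.T (y j1) Q (y (j1 + 1)) := SID hT hj1Q hnext
  have ht1 : C.T.dist (y j1) Q ≤ D := by
    have s := hstep j1
    unfold Bt at hA
    omega
  obtain ⟨i, hi⟩ : ∃ i, j2 = i + 1 := ⟨j2 - 1, by omega⟩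
  have hB : Bt C.T (y j2) P (y i) := by
    refine SID hT (P := Q) (Bt.symm hj2P) ?_
    intro h
    exact hj2min i (by omega) (Bt.symm h)
  have ht2 : C.T.dist P (y j2) ≤ D := by
    have s := hstep i
    rw [← hi] at s
    unfold Bt at hB
    have c1 := dcomm (T := C.T) (y j2) P
    have c2 := dcomm (T := C.T) (y j2) (y i)
    omega
  obtain ⟨c1, c2⟩ := CAT hT hj1Q hj2P hQP
  have htot : C.T.dist (y j1) (y j2) =
      C.T.dist (y j1) Q + C.T.dist Q P + C.T.dist P (y j2) := by
    unfold Bt at c1 c2 hj1Q hj2P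
    omega
  have huz : b.take j1 ++ (b.take j2).drop j1 = b.take j2 := by
    have h1 : b.take j1 = (b.take j2).take j1 := by
      rw [List.take_take, Nat.min_eq_left (by omega)]
    rw [h1, List.take_append_drop]
  have hzlen : ((b.take j2).drop j1).length = j2 - j1 := by
    rw [List.length_drop, List.length_take, Nat.min_eq_left hj2len]
  have e1 : (g * GWP.ev e (b.take j1)) • C.o = y j1 := by
    rw [hy, mul_smul]
  have e2 : (g * GWP.ev e (b.take j1)) • GWP.ev e ((b.take j2).drop j1) • C.o = y j2 := by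
    rw [hy, ← huz, GWP.ev_append, mul_smul, mul_smul, huz]
  refine ⟨b.take j1, (b.take j2).drop j1, b.drop j2, C.T.dist (y j1) Q, C.T.dist P (y j2),
    ?_, ht1, ht2, ⟨g * GWP.ev e (b.take j1), ?_, ?_, ?_⟩, ?_⟩
  · rw [huz, List.take_append_drop]
  · rw [e1]
  · rw [e2]
  · rw [e1, e2]
    exact htot
  · rw [hzlen]
    have h1 := hlen j1 (j2 - j1)
    rw [show j1 + (j2 - j1) = j2 by omega] at h1
    have h2 : C.T.dist Q P ≤ C.T.dist (y j1) (y j2) := by omega
    exact le_trans h2 h1

end GWT
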